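import Pool.Agent.H88.RC.Main

/-!
# The individual step complexity of randomized consensus with single-writer registers is linear

`S n` is the least individual step complexity (expected number of reads and writes of a process,
against the strong adversary) of a protocol for `n` processes that solves randomized binary
consensus with single-writer multiple-reader registers. We show `S n = Θ(n)`: the lower bound
`n - 1` holds for all `n`, the upper bound `C n` for all large `n`.
-/

namespace Pool.Agent.Results.MP_f9e3d9_lc.LinearOrder

open Filter RC

open scoped ENNReal

theorem result : (∀ n : ℕ, ((n - 1 : ℕ) : ℝ≥0∞) ≤ S n) ∧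
    (∃ C : ℕ, ∀ᶠ n : ℕ in atTop, S n ≤ (C * n : ℕ)) ∧
    (fun n => (S n).toReal) =Θ[atTop] (fun n : ℕ => (n : ℝ)) :=
  theta_S consStatement exists_stage1 S2.exists_stage2

end Pool.Agent.Results.MP_f9e3d9_lc.LinearOrder
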